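import Mathlib

/-!
# Gallagher's prime number theorem. Definitions

Log-free zero density for Dirichlet L-functions, the Landau-Page theorem, and primes twisted by
all primitive characters of small conductor.
-/

set_option autoImplicit false

namespace Pool.Agent.GA

open Finset Complex
open scoped ArithmeticFunction.vonMangoldt Classical

/-! ## Zeros -/

/-- the order of vanishing as a real number -/
noncomputable def mlt (f : ℂ → ℂ) (ρ : ℂ) : ℝ := (analyticOrderNatAt f ρ : ℝ)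

/-- the zeros in a closed ball (junk value `∅` if there are infinitely many) -/
noncomputable def zb (f : ℂ → ℂ) (c : ℂ) (R : ℝ) : Finset ℂ :=
  if h : {ρ : ℂ | f ρ = 0 ∧ ρ ∈ Metric.closedBall c R}.Finite then h.toFinset else ∅

/-- the zeros in the rectangle `1 - a ≤ Re ρ ≤ 1`, `|Im ρ| ≤ T` -/
noncomputable def zr (f : ℂ → ℂ) (a T : ℝ) : Finset ℂ :=
  if h : {ρ : ℂ | f ρ = 0 ∧ 1 - a ≤ ρ.re ∧ ρ.re ≤ 1 ∧ |ρ.im| ≤ T}.Finite then h.toFinset else ∅

/-- the number of zeros in the rectangle, with multiplicity -/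
noncomputable def nz (f : ℂ → ℂ) (a T : ℝ) : ℝ := ∑ ρ ∈ zr f a T, mlt f ρ

/-! ## Characters -/

/-- the nontrivial primitive characters modulo `q` -/
noncomputable def Prm (q : ℕ) : Finset (DirichletCharacter ℂ q) :=
  univ.filter (fun χ => χ.IsPrimitive ∧ χ ≠ 1)

/-- the L-function of `χ` (without a hypothesis on the modulus) -/
noncomputable def LF {q : ℕ} (χ : DirichletCharacter ℂ q) (s : ℂ) : ℂ :=
  if h : q = 0 then 1 else haveI : NeZero q := ⟨h⟩; DirichletCharacter.LFunction χ s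

/-- `log (q (|t| + 2))` -/
noncomputable def lt (q : ℕ) (t : ℝ) : ℝ := Real.log (q * (|t| + 2))

/-- `∑ Λ(n) χ(n) (log n)^j n^(-s)`, which is `(-1)^j` times the `j`-th derivative of `-L'/L(s, χ)`
for `Re s > 1` -/
noncomputable def Gj {q : ℕ} (χ : DirichletCharacter ℂ q) (j : ℕ) (s : ℂ) : ℂ :=
  LSeries (fun n => ((Λ n : ℝ) : ℂ) * χ (n : ZMod q) * (((Real.log n) ^ j : ℝ) : ℂ)) s

/-- the part of `Gj χ j (1 + δ + i v) / j!` coming from the primes in `(a, b]` -/
noncomputable def Pw {q : ℕ} (χ : DirichletCharacter ℂ q) (j : ℕ) (δ v : ℝ) (a b : ℕ) : ℂ :=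
  ∑ p ∈ (Ioc a b).filter Nat.Prime,
    ((Real.log p ^ (j + 1) / (j.factorial : ℝ) : ℝ) : ℂ) * χ (p : ZMod q) *
      (p : ℂ) ^ (-(1 + δ + v * I) : ℂ)

/-! ## The smooth window -/

/-- the exponent of the window -/
noncomputable def kX (X : ℝ) : ℕ := ⌊Real.log X ^ 2⌋₊

/-- the window: `wX X n` is about `e^(-(log (n/X))^2/2) / n`, with
`∑ Λ(n) wX X n` about `1` -/
noncomputable def wX (X : ℝ) (n : ℕ) : ℝ :=
  Real.log n ^ kX X * Real.log X ^ (kX X + 1) / ((kX X).factorial * (n : ℝ) ^ (1 + Real.log X))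

/-- the twisted sum over prime powers -/
noncomputable def SX {q : ℕ} (χ : DirichletCharacter ℂ q) (X t : ℝ) : ℂ :=
  ∑' n : ℕ, ((Λ n * wX X n : ℝ) : ℂ) * χ (n : ZMod q) * (n : ℂ) ^ (-(t * I) : ℂ)

/-- the twisted sum over primes -/
noncomputable def SP {q : ℕ} (χ : DirichletCharacter ℂ q) (X t : ℝ) : ℂ :=
  ∑' n : ℕ, if n.Prime then ((Real.log n * wX X n : ℝ) : ℂ) * χ (n : ZMod q) *
    (n : ℂ) ^ (-(t * I) : ℂ) else 0

/-- no real character of conductor at most `D` has a real zero within `c / log D` of `1` -/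
def Good (c : ℝ) (D : ℕ) : Prop :=
  ∀ q ∈ Icc 1 D, ∀ χ ∈ Prm q, χ ^ 2 = 1 → ∀ β : ℝ, LF χ (β : ℂ) = 0 →
    β ≤ 1 - c / Real.log D

end Pool.Agent.GA
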